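import Mathlib

/-!
# BR: base change of central simple algebras
-/

set_option autoImplicit false

namespace Pool.Agent.Helper45.BR

open scoped TensorProduct
open Polynomial

section

variable (K E A : Type*) [Field K] [Field E] [Algebra K E] [Ring A] [Algebra K A]

/-- an element of `E ⊗ A` which commutes with `A` comes from `E` -/
theorem exists_left [Algebra.IsCentral K A] (y : E ⊗[K] A)
    (hy : ∀ b : A, (1 : E) ⊗ₜ[K] b * y = y * (1 : E) ⊗ₜ[K] b) : ∃ e : E, y = e ⊗ₜ[K] (1 : A) := by
  have h1 : y ∈ Subalgebra.centralizer K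
      ((Algebra.TensorProduct.includeRight : A →ₐ[K] E ⊗[K] A).range : Set (E ⊗[K] A)) := by
    rw [Subalgebra.mem_centralizer_iff]
    rintro _ ⟨b, rfl⟩
    exact hy b
  rw [Subalgebra.centralizer_range_includeRight_eq_center_tensorProduct] at h1
  obtain ⟨w, hw⟩ := h1
  have hw' : (Algebra.TensorProduct.map (AlgHom.id K E) (Subalgebra.center K A).val) w = y := hw
  rw [← hw']
  clear hw hw' hy
  induction w using TensorProduct.induction_on with
  | zero => exact ⟨0, by simp⟩
  | tmul e c =>
    obtain ⟨k, hk⟩ := (Algebra.IsCentral.mem_center_iff K).mp c.2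
    refine ⟨k • e, ?_⟩
    rw [Algebra.TensorProduct.map_tmul, TensorProduct.smul_tmul]
    show e ⊗ₜ[K] (c : A) = _
    rw [hk, Algebra.algebraMap_eq_smul_one]
  | add a b ha hb =>
    obtain ⟨e1, h1⟩ := ha
    obtain ⟨e2, h2⟩ := hb
    exact ⟨e1 + e2, by rw [map_add, h1, h2, TensorProduct.add_tmul]⟩

/-- **BC1** -/
theorem isCentral_baseChange [Algebra.IsCentral K A] : Algebra.IsCentral E (E ⊗[K] A) where
  out := by
    intro y hy
    rw [Subalgebra.mem_center_iff] at hy
    obtain ⟨e, he⟩ := exists_left K E A y fun b => hy _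
    exact ⟨e, by rw [he]; rfl⟩

/-- **BC2** -/
theorem isSimple_baseChange [Algebra.IsCentral K A] [IsSimpleRing A] :
    IsSimpleRing (E ⊗[K] A) := by
  classical
  rw [isSimpleRing_iff_isTwoSided_imp]
  refine ⟨inferInstance, fun I hI => ?_⟩
  by_cases hI0 : I = ⊥
  · exact Or.inl hI0
  right
  obtain ⟨x0, hx0I, hx0⟩ := Submodule.exists_mem_ne_zero_of_ne_bot hI0
  let B := Module.Free.chooseBasis K E
  let φ := TensorProduct.equivFinsuppOfBasisLeft (N := A) B
  have hφ : ∀ (b c : A) (x : E ⊗[K] A) i,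
      φ ((1 : E) ⊗ₜ[K] b * x * (1 : E) ⊗ₜ[K] c) i = b * φ x i * c := by
    intro b c x i
    induction x using TensorProduct.induction_on with
    | zero => simp
    | tmul e a =>
      rw [Algebra.TensorProduct.tmul_mul_tmul, Algebra.TensorProduct.tmul_mul_tmul, one_mul, mul_one]
      simp only [φ, TensorProduct.equivFinsuppOfBasisLeft_apply_tmul_apply]
      rw [Algebra.mul_smul_comm, Algebra.smul_mul_assoc]
    | add x y hx hy => rw [mul_add, add_mul, map_add, map_add, Finsupp.add_apply, hx, hy,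
        Finsupp.add_apply, mul_add, add_mul]
  obtain ⟨x, ⟨hxI, hx⟩, hmin⟩ := (measure fun x : E ⊗[K] A => (φ x).support.card).wf.has_min
    {x | x ∈ I ∧ x ≠ 0} ⟨x0, hx0I, hx0⟩
  have hφx : φ x ≠ 0 := by
    rw [Ne, LinearEquiv.map_eq_zero_iff]; exact hx
  obtain ⟨i0, hi0⟩ := Finsupp.ne_iff.mp hφx
  rw [Finsupp.zero_apply] at hi0
  -- the ideal of the coefficients at `i0`
  let J : Ideal A :=
    { carrier := {a | ∃ y ∈ I, (φ y).support ⊆ (φ x).support ∧ φ y i0 = a}
      add_mem' := by
        rintro a b ⟨y, hy, hys, rfl⟩ ⟨z, hz, hzs, rfl⟩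
        refine ⟨y + z, I.add_mem hy hz, ?_, by rw [map_add, Finsupp.add_apply]⟩
        rw [map_add]
        exact Finsupp.support_add.trans (Finset.union_subset hys hzs)
      zero_mem' := ⟨0, I.zero_mem, by simp, by simp⟩
      smul_mem' := by
        rintro b _ ⟨y, hy, hys, rfl⟩
        refine ⟨(1 : E) ⊗ₜ[K] b * y * (1 : E) ⊗ₜ[K] (1 : A), ?_, ?_, ?_⟩
        · exact I.mul_mem_right _ (I.mul_mem_left _ hy)
        · intro i hi
          refine hys ?_
          rw [Finsupp.mem_support_iff] at hi ⊢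
          rw [hφ, mul_one] at hi
          exact right_ne_zero_of_mul hi
        · rw [hφ, mul_one, smul_eq_mul] }
  have hJ : J.IsTwoSided := ⟨by
    rintro _ c ⟨y, hy, hys, rfl⟩
    refine ⟨(1 : E) ⊗ₜ[K] (1 : A) * y * (1 : E) ⊗ₜ[K] c, ?_, ?_, ?_⟩
    · exact I.mul_mem_right _ (I.mul_mem_left _ hy)
    · intro i hi
      refine hys ?_
      rw [Finsupp.mem_support_iff] at hi ⊢
      rw [hφ, one_mul] at hi
      exact left_ne_zero_of_mul hi
    · rw [hφ, one_mul]⟩
  have hJtop : J = ⊤ := by
    rcases (isSimpleRing_iff_isTwoSided_imp.mp ‹IsSimpleRing A›).2 J hJ with h | h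
    · exfalso
      have : φ x i0 ∈ J := ⟨x, hxI, subset_rfl, rfl⟩
      rw [h] at this
      exact hi0 this
    · exact h
  obtain ⟨y, hyI, hys, hy1⟩ : (1 : A) ∈ J := by rw [hJtop]; trivial
  have hcomm : ∀ b : A, (1 : E) ⊗ₜ[K] b * y = y * (1 : E) ⊗ₜ[K] b := by
    intro b
    by_contra hne
    have h1 : (1 : E) ⊗ₜ[K] b * y - y * (1 : E) ⊗ₜ[K] b ∈ I :=
      I.sub_mem (I.mul_mem_left _ hyI) (I.mul_mem_right _ hyI)
    have h2 := hmin _ ⟨h1, sub_ne_zero.mpr hne⟩
    apply h2
    have e1 : ∀ i, φ ((1 : E) ⊗ₜ[K] b * y - y * (1 : E) ⊗ₜ[K] b) i = b * φ y i - φ y i * b := by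
      intro i
      have ha := hφ b 1 y i
      have hb := hφ 1 b y i
      rw [← Algebra.TensorProduct.one_def, mul_one, mul_one] at ha
      rw [← Algebra.TensorProduct.one_def, one_mul, one_mul] at hb
      rw [map_sub, Finsupp.sub_apply, ha, hb]
    refine Finset.card_lt_card (Finset.ssubset_of_subset_of_ssubset ?_
      (Finset.erase_ssubset (Finsupp.mem_support_iff.mpr hi0)))
    intro i hi
    rw [Finsupp.mem_support_iff, e1] at hi
    rw [Finset.mem_erase]
    constructor
    · rintro rfl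
      rw [hy1, mul_one, one_mul, sub_self] at hi
      exact hi rfl
    · refine hys ?_
      rw [Finsupp.mem_support_iff]
      intro h
      rw [h, mul_zero, zero_mul, sub_zero] at hi
      exact hi rfl
  obtain ⟨e, he⟩ := exists_left K E A y hcomm
  have he0 : e ≠ 0 := by
    rintro rfl
    rw [TensorProduct.zero_tmul] at he
    rw [he, map_zero, Finsupp.zero_apply] at hy1
    exact zero_ne_one hy1
  rw [Ideal.eq_top_iff_one]
  have := I.mul_mem_left ((e⁻¹ : E) ⊗ₜ[K] (1 : A)) hyI
  rwa [he, Algebra.TensorProduct.tmul_mul_tmul, inv_mul_cancel₀ he0, one_mul,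
    ← Algebra.TensorProduct.one_def] at this

end

/-- **BC3**: over a field which contains a root, there are zero divisors -/
theorem exists_zero_div (K E D : Type*) [Field K] [Field E] [Algebra K E] [DivisionRing D]
    [Algebra K D] [Algebra.IsCentral K D] {z : D} (hz : z ∉ (algebraMap K D).range) {f : K[X]}
    (hf0 : f ≠ 0) (hf : aeval z f = 0) (hs : (f.map (algebraMap K E)).Splits) :
    ¬ NoZeroDivisors (E ⊗[K] D) := by
  intro hnz
  have hdom : IsDomain (E ⊗[K] D) := NoZeroDivisors.to_isDomain _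
  set z' : E ⊗[K] D := (1 : E) ⊗ₜ[K] z with hz'
  have h1 : aeval z' (f.map (algebraMap K E)) = 0 := by
    rw [aeval_map_algebraMap]
    have : z' = (Algebra.TensorProduct.includeRight : D →ₐ[K] E ⊗[K] D) z := rfl
    rw [this, aeval_algHom_apply, hf, map_zero]
  have h2 : ∃ a : E, aeval z' (X - C a) = 0 := by
    rw [hs.eq_prod_roots] at h1
    rw [map_mul, aeval_C] at h1
    have h3 : algebraMap E (E ⊗[K] D) (f.map (algebraMap K E)).leadingCoeff ≠ 0 := by
      rw [Ne, FaithfulSMul.algebraMap_eq_zero_iff, leadingCoeff_eq_zero,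
        Polynomial.map_eq_zero]
      exact hf0
    have h4 := (mul_eq_zero.mp h1).resolve_left h3
    have h5 : ∀ s : Multiset E, aeval z' (s.map fun a => X - C a).prod = 0 →
        ∃ a : E, aeval z' (X - C a) = 0 := by
      intro s
      induction s using Multiset.induction_on with
      | empty => intro h; simp at h
      | cons a s ih =>
        intro h
        rw [Multiset.map_cons, Multiset.prod_cons, map_mul] at h
        rcases mul_eq_zero.mp h with h | h
        · exact ⟨a, h⟩
        · exact ih h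
    exact h5 _ h4
  obtain ⟨a, ha⟩ := h2
  rw [map_sub, aeval_X, aeval_C, sub_eq_zero] at ha
  apply hz
  have hc : z ∈ Subalgebra.center K D := by
    rw [Subalgebra.mem_center_iff]
    intro b
    have hinj : Function.Injective
        (Algebra.TensorProduct.includeRight : D →ₐ[K] E ⊗[K] D) :=
      Algebra.TensorProduct.includeRight_injective (algebraMap K E).injective
    apply hinj
    rw [map_mul, map_mul]
    show (1 : E) ⊗ₜ[K] b * z' = z' * (1 : E) ⊗ₜ[K] b
    rw [ha]
    exact (Algebra.commutes a _).symm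
  obtain ⟨k, hk⟩ := (Algebra.IsCentral.mem_center_iff K).mp hc
  exact ⟨k, hk.symm⟩

end Pool.Agent.Helper45.BR
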