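import Mathlib

/-!
# BR, G9: representations of `M_r(D)` and of `D`
-/

set_option autoImplicit false

namespace Pool.Agent.Helper45.BR

open Matrix

section

variable {K D F : Type*} [Field K] [Ring D] [Algebra K D] [Field F] [Algebra K F]

/-- **G9a** -/
theorem rep_matrix {r d : ℕ} (h : Nonempty (D →ₐ[K] Matrix (Fin d) (Fin d) F)) :
    Nonempty (Matrix (Fin r) (Fin r) D →ₐ[K] Matrix (Fin (r * d)) (Fin (r * d)) F) := by
  obtain ⟨φ⟩ := h
  exact ⟨((Matrix.reindexAlgEquiv K F finProdFinEquiv).toAlgHom.comp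
    (Matrix.compAlgEquiv (Fin r) (Fin d) F K).toAlgHom).comp φ.mapMatrix⟩

/-- **G9b** -/
theorem rep_of_matrix {r d : ℕ} (hr : r ≠ 0)
    (h : Nonempty (Matrix (Fin r) (Fin r) D →ₐ[K] Matrix (Fin (r * d)) (Fin (r * d)) F)) :
    Nonempty (D →ₐ[K] Matrix (Fin d) (Fin d) F) := by
  classical
  obtain ⟨φ⟩ := h
  have : NeZero r := ⟨hr⟩
  let E : Fin r → Fin r → D → Matrix (Fin r) (Fin r) D := fun i j x => Matrix.single i j x
  let V := Fin (r * d) → F
  let ψ : Matrix (Fin r) (Fin r) D →ₐ[K] Module.End F V :=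
    ((Matrix.toLinAlgEquiv' (R := F) (n := Fin (r * d))).toAlgHom.restrictScalars K).comp φ
  -- the image of the first idempotent
  let P : Module.End F V := ψ (E 0 0 1)
  let W : Submodule F V := LinearMap.range P
  have hEE : ∀ (i j k : Fin r) (x y : D), E i j x * E j k y = E i k (x * y) := fun i j k x y =>
    Matrix.single_mul_single_same ..
  have hψ : ∀ (i j k : Fin r) (x y : D) (v : V), ψ (E i j x) (ψ (E j k y) v) =
      ψ (E i k (x * y)) v := by
    intro i j k x y v
    rw [← hEE, map_mul, Module.End.mul_apply]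
  have hψ0 : ∀ (i j j' k : Fin r) (x y : D) (v : V), j ≠ j' → ψ (E i j x) (ψ (E j' k y) v) = 0 := by
    intro i j j' k x y v hj
    rw [← Module.End.mul_apply, ← map_mul, Matrix.single_mul_single_of_ne _ _ _ _ hj, map_zero,
      LinearMap.zero_apply]
  have hsum : ∀ v : V, ∑ i, ψ (E i i 1) v = v := by
    intro v
    have h1 : ∑ i, E i i (1 : D) = 1 := by
      have := Matrix.sum_single_eq_diagonal (fun _ : Fin r => (1 : D))
      rw [Matrix.diagonal_one] at this
      exact this
    calc ∑ i, ψ (E i i 1) v = (ψ (∑ i, E i i (1 : D))) v := by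
          rw [map_sum, LinearMap.sum_apply]
      _ = v := by rw [h1, map_one, Module.End.one_apply]
  have hmemW : ∀ (j : Fin r) (x : D) (v : V), ψ (E 0 j x) v ∈ W := by
    intro j x v
    refine ⟨ψ (E 0 j x) v, ?_⟩
    show ψ (E 0 0 1) (ψ (E 0 j x) v) = _
    rw [hψ, one_mul]
  have hPW : ∀ w ∈ W, ψ (E 0 0 1) w = w := by
    rintro _ ⟨v, rfl⟩
    show ψ (E 0 0 1) (ψ (E 0 0 1) v) = ψ (E 0 0 1) v
    rw [hψ, one_mul]
  -- the dimension of `W`
  let e : V ≃ₗ[F] (Fin r → W) :=
    { toFun := fun v i => ⟨ψ (E 0 i 1) v, hmemW i 1 v⟩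
      map_add' := fun v w => by ext i : 2; simp
      map_smul' := fun c v => by ext i : 2; simp
      invFun := fun w => ∑ i, ψ (E i 0 1) (w i : V)
      left_inv := fun v => by
        show ∑ i, ψ (E i 0 1) (ψ (E 0 i 1) v) = v
        simp_rw [hψ, one_mul]
        exact hsum v
      right_inv := fun w => by
        ext i : 2
        show ψ (E 0 i 1) (∑ j, ψ (E j 0 1) (w j : V)) = w i
        rw [map_sum, Finset.sum_eq_single i]
        · rw [hψ, one_mul]
          exact hPW _ (w i).2
        · intro j _ hj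
          exact hψ0 _ _ _ _ _ _ _ hj.symm
        · intro h
          exact absurd (Finset.mem_univ i) h }
  have hdim : Module.finrank F W = d := by
    have h1 := e.finrank_eq
    rw [Module.finrank_fin_fun, Module.finrank_pi_fintype, Finset.sum_const, Finset.card_univ,
      Fintype.card_fin, smul_eq_mul] at h1
    exact (Nat.eq_of_mul_eq_mul_left (Nat.pos_of_ne_zero hr) h1).symm
  -- the representation
  let ρ : D →ₐ[K] Module.End F W :=
    { toFun := fun x => LinearMap.codRestrict W ((ψ (E 0 0 x)).domRestrict W)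
        (fun w => hmemW 0 x w)
      map_one' := by
        ext w : 2
        exact hPW _ w.2
      map_mul' := fun x y => by
        ext w : 2
        show ψ (E 0 0 (x * y)) (w : V) = ψ (E 0 0 x) (ψ (E 0 0 y) w)
        rw [hψ]
      map_zero' := by
        ext w : 2
        show ψ (E 0 0 0) (w : V) = 0
        have : E 0 0 (0 : D) = 0 := Matrix.single_zero ..
        rw [this, map_zero, LinearMap.zero_apply]
      map_add' := fun x y => by
        ext w : 2
        show ψ (E 0 0 (x + y)) (w : V) = ψ (E 0 0 x) w + ψ (E 0 0 y) w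
        have : E 0 0 (x + y) = E 0 0 x + E 0 0 y := Matrix.single_add ..
        rw [this, map_add, LinearMap.add_apply]
      commutes' := fun c => by
        ext w : 2
        show ψ (E 0 0 (algebraMap K D c)) (w : V) = (c • (w : W) : W)
        have h1 : E 0 0 (algebraMap K D c) = c • E 0 0 1 := by
          simp only [E]
          rw [Matrix.smul_single, Algebra.algebraMap_eq_smul_one]
        rw [h1, map_smul]
        show c • ψ (E 0 0 1) (w : V) = c • (w : V)
        rw [hPW _ w.2] }
  have hfin : Module.Finite F W := inferInstance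
  let b : Module.Basis (Fin d) F W := Module.finBasisOfFinrankEq F W hdim
  exact ⟨((LinearMap.toMatrixAlgEquiv b).toAlgHom.restrictScalars K).comp ρ⟩

end

end Pool.Agent.Helper45.BR
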