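import Pool.Agent.Helper45.BR.Base
import Pool.Agent.Helper45.BR.Rep
import Pool.Agent.Helper82.BR.Compl

/-!
# BR, G8 and G10: zero divisors over the field of the roots, induction on the degree
-/

set_option autoImplicit false

namespace Pool.Agent.Helper45.BR

open NumberField IsDedekindDomain Polynomial Module
open scoped TensorProduct

/-- the centre of `D` when `M_n(D)` is central -/
theorem isCentral_of_matrix {E D : Type*} [Field E] [Ring D] [Algebra E D] {n : ℕ} (hn : n ≠ 0)
    [h : Algebra.IsCentral E (Matrix (Fin n) (Fin n) D)] : Algebra.IsCentral E D where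
  out := by
    intro x hx
    rw [Subalgebra.mem_center_iff] at hx
    have : NeZero n := ⟨hn⟩
    have h1 : Matrix.scalar (Fin n) x ∈ Subalgebra.center E (Matrix (Fin n) (Fin n) D) := by
      rw [Subalgebra.mem_center_iff]
      intro M
      exact (Matrix.scalar_commute x (fun r => (hx r).symm) M).eq.symm
    obtain ⟨e, he⟩ := (Algebra.IsCentral.mem_center_iff E).mp h1
    refine ⟨e, ?_⟩
    have h2 := congrFun (congrFun he 0) 0
    rw [Matrix.scalar_apply, Matrix.diagonal_apply_eq, Matrix.algebraMap_matrix_apply,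
      if_pos rfl] at h2
    exact h2.symm

/-- **Wedderburn** for central simple algebras of dimension `m ^ 2` -/
theorem exists_division {E B : Type} [Field E] [Ring B] [Algebra E B] [Algebra.IsCentral E B]
    [IsSimpleRing B] [Module.Finite E B] {m : ℕ} (hm : m ≠ 0) (hB : finrank E B = m ^ 2) :
    ∃ (r d : ℕ) (D : Type) (_ : DivisionRing D) (_ : Algebra E D),
      r ≠ 0 ∧ d ≠ 0 ∧ r * d = m ∧ Algebra.IsCentral E D ∧ Module.Finite E D ∧
        finrank E D = d ^ 2 ∧ Nonempty (B ≃ₐ[E] Matrix (Fin r) (Fin r) D) := by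
  have : IsArtinianRing B := IsArtinianRing.of_finite E B
  obtain ⟨r, hr, D, iD, iA, iF, ⟨e⟩⟩ := IsSimpleRing.exists_algEquiv_matrix_divisionRing_finite E B
  have hr0 : r ≠ 0 := hr.out
  have h1 : finrank E B = r ^ 2 * finrank E D := by
    rw [e.toLinearEquiv.finrank_eq, Module.finrank_matrix, Fintype.card_fin]
    ring
  rw [hB] at h1
  have h2 : r ∣ m := by
    rw [← Nat.pow_dvd_pow_iff two_ne_zero]
    exact ⟨_, h1⟩
  obtain ⟨d, rfl⟩ := h2
  have hd0 : d ≠ 0 := by rintro rfl; simp at hm
  have : Algebra.IsCentral E (Matrix (Fin r) (Fin r) D) := Algebra.IsCentral.of_algEquiv E _ _ e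
  refine ⟨r, d, D, iD, iA, hr0, hd0, rfl, isCentral_of_matrix hr0, iF, ?_, ⟨e⟩⟩
  rw [mul_pow] at h1
  exact (Nat.eq_of_mul_eq_mul_left (pow_pos (Nat.pos_of_ne_zero hr0) 2) h1).symm

/-- the statement of the engine -/
def EngineStmt : Prop :=
  ∀ (L : Type) [Field L] [NumberField L], (∀ w : InfinitePlace L, w.IsComplex) →
    ∀ d : ℕ, 1 < d → ∃ S : Set (AlgebraicClosure L), S.Finite ∧
      ∀ (D : Type) [Ring D] [Algebra L D] [Algebra.IsCentral L D] [IsSimpleRing D]
        [Module.Finite L D], finrank L D = d ^ 2 →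
        (∀ w : HeightOneSpectrum (𝓞 L),
          Nonempty (D →ₐ[L] Matrix (Fin d) (Fin d) (w.adicCompletion L))) →
        ∃ z : D, z ∉ Set.range (algebraMap L D) ∧ ∃ p : L[X], p.Monic ∧ aeval z p = 0 ∧
          ∀ lam : AlgebraicClosure L, aeval lam p = 0 → lam ∈ S

/-- total imaginarity goes up -/
theorem isComplex_up {K L : Type} [Field K] [NumberField K] [Field L] [NumberField L] [Algebra K L]
    (hK : ∀ w : InfinitePlace K, w.IsComplex) (w : InfinitePlace L) : w.IsComplex := by
  rw [← InfinitePlace.not_isReal_iff_isComplex]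
  intro h
  have := h.comap (algebraMap K L)
  exact InfinitePlace.not_isReal_iff_isComplex.mpr (hK _) this

/-- representations and isomorphisms of the algebra -/
theorem rep_congr {K A B F : Type} {m : ℕ} [Field K] [Ring A] [Algebra K A] [Ring B] [Algebra K B]
    [Field F] [Algebra K F] (e : A ≃ₐ[K] B) (h : Nonempty (A →ₐ[K] Matrix (Fin m) (Fin m) F)) :
    Nonempty (B →ₐ[K] Matrix (Fin m) (Fin m) F) :=
  h.map fun f => f.comp e.symm.toAlgHom

/-- **G10** for division algebras -/
theorem iter_div (eng : EngineStmt) : ∀ (n : ℕ) (K : Type) [Field K] [NumberField K],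
    (∀ w : InfinitePlace K, w.IsComplex) →
    ∃ (L' : Type) (_ : Field L') (_ : NumberField L') (_ : Algebra K L'),
      ∀ d : ℕ, d ≠ 0 → d ≤ n → ∀ (D : Type) [DivisionRing D] [Algebra K D] [Algebra.IsCentral K D]
        [Module.Finite K D], finrank K D = d ^ 2 →
        (∀ w : HeightOneSpectrum (𝓞 K),
          Nonempty (D →ₐ[K] Matrix (Fin d) (Fin d) (w.adicCompletion K))) →
        Nonempty (D →ₐ[K] Matrix (Fin d) (Fin d) L') := by
  intro n
  induction n with
  | zero =>
    intro K _ _ _
    refine ⟨K, inferInstance, inferInstance, inferInstance, fun d hd hd0 => ?_⟩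
    omega
  | succ n ih =>
    intro K _ _ hK
    -- the field of the roots
    choose! S hSf hS using fun d (hd : 1 < d) => eng K hK d hd
    set T : Set (AlgebraicClosure K) := ⋃ d ∈ Finset.Icc 2 (n + 1), S d with hT
    have hTf : T.Finite := Set.Finite.biUnion (Finset.finite_toSet _) fun d hd =>
      hSf d (by have := (Finset.mem_Icc.mp hd).1; omega)
    let L1 : IntermediateField K (AlgebraicClosure K) := IntermediateField.adjoin K T
    have hfin : FiniteDimensional K L1 := by
      have : Finite T := hTf.to_subtype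
      exact IntermediateField.finiteDimensional_adjoin
        fun x _ => (Algebra.IsAlgebraic.isAlgebraic x).isIntegral
    have hnf : NumberField L1 := NumberField.of_module_finite K L1
    obtain ⟨L', iF, iN, iA, hL'⟩ := ih L1 (isComplex_up hK)
    letI iAK : Algebra K L' := ((algebraMap L1 L').comp (algebraMap K L1)).toAlgebra
    haveI : IsScalarTower K L1 L' := IsScalarTower.of_algebraMap_eq fun _ => rfl
    refine ⟨L', iF, iN, iAK, fun d hd0 hd D iD iAD iC iFin hdim hloc => ?_⟩
    by_cases hd1 : d = 1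
    · subst hd1
      have h1 : Function.Bijective (algebraMap K D) :=
        Module.Free.bijective_algebraMap_of_finrank_eq_one (by simpa using hdim)
      let e : K ≃ₐ[K] D := AlgEquiv.ofBijective (Algebra.ofId K D) h1
      exact ⟨(Algebra.ofId K (Matrix (Fin 1) (Fin 1) L')).comp e.symm.toAlgHom⟩
    · have hd2 : 1 < d := by omega
      obtain ⟨z, hz, p, hp, hpz, hpr⟩ := hS d hd2 D hdim hloc
      have hsplit : (p.map (algebraMap K L1)).Splits := by
        refine IntermediateField.splits_of_splits (IsAlgClosed.splits _) fun x hx => ?_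
        refine IntermediateField.subset_adjoin K T ?_
        rw [hT]
        refine Set.mem_biUnion (Finset.mem_coe.mpr (Finset.mem_Icc.mpr ⟨hd2, hd⟩)) (hpr x ?_)
        rw [mem_rootSet'] at hx
        exact hx.2
      have hnz := exists_zero_div K L1 D (z := z) (by simpa using hz) hp.ne_zero hpz hsplit
      have := isCentral_baseChange K L1 D
      have := isSimple_baseChange K L1 D
      have hdimB : finrank L1 (L1 ⊗[K] D) = d ^ 2 := by rw [Module.finrank_baseChange, hdim]
      obtain ⟨r, d', D', iD', iAD', hr0, hd'0, hrd, iC', iFin', hdim', ⟨e⟩⟩ :=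
        exists_division (E := L1) (B := L1 ⊗[K] D) hd0 hdimB
      -- the degree drops
      have hr1 : r ≠ 1 := by
        rintro rfl
        apply hnz
        have e2 : (L1 ⊗[K] D) ≃+* D' :=
          e.toRingEquiv.trans (Matrix.uniqueRingEquiv (A := D') (m := Fin 1))
        exact e2.injective.noZeroDivisors e2 (map_zero e2) (map_mul e2)
      have hd'n : d' ≤ n := by
        have h2 : 2 ≤ r := by omega
        have h3 : 2 * d' ≤ d := by rw [← hrd]; exact Nat.mul_le_mul_right _ h2
        omega
      have hloc' : ∀ w : HeightOneSpectrum (𝓞 L1),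
          Nonempty (D' →ₐ[L1] Matrix (Fin d') (Fin d') (w.adicCompletion L1)) := by
        intro w
        have h1 := Pool.Agent.Helper82.BR.rep_up_all (K := K) (L := L1) hloc w
        have h2 := rep_congr e h1
        subst hrd
        exact rep_of_matrix hr0 h2
      have h3 := rep_matrix (r := r) (hL' d' hd'0 hd'n D' hdim' hloc')
      have h4 := rep_congr (K := L1) (A := Matrix (Fin r) (Fin r) D') (B := L1 ⊗[K] D) e.symm h3
      rw [hrd] at h4
      exact h4.map fun f => (f.restrictScalars K).comp
        (Algebra.TensorProduct.includeRight : D →ₐ[K] L1 ⊗[K] D)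

/-- **GLOB**, from the engine -/
theorem glob_of_engine (eng : EngineStmt) (L : Type) [Field L] [NumberField L]
    (hL : ∀ w : InfinitePlace L, w.IsComplex) (m : ℕ) (hm : 0 < m) :
    ∃ (L' : Type) (_ : Field L') (_ : NumberField L') (_ : Algebra L L'),
      ∀ (A : Type) [Ring A] [Algebra L A] [Algebra.IsCentral L A] [IsSimpleRing A]
        [Module.Finite L A], finrank L A = m ^ 2 →
        (∀ w : HeightOneSpectrum (𝓞 L),
          Nonempty (A →ₐ[L] Matrix (Fin m) (Fin m) (w.adicCompletion L))) →
        Nonempty (A →ₐ[L] Matrix (Fin m) (Fin m) L') := by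
  obtain ⟨L', iF, iN, iA, h⟩ := iter_div eng m L hL
  refine ⟨L', iF, iN, iA, fun A _ _ _ _ _ hdim hloc => ?_⟩
  obtain ⟨r, d, D, iD, iAD, hr0, hd0, hrd, iC, iFin, hdimD, ⟨e⟩⟩ := exists_division hm.ne' hdim
  have hdm : d ≤ m := by
    rw [← hrd]
    exact Nat.le_mul_of_pos_left d (Nat.pos_of_ne_zero hr0)
  have hlocD : ∀ w : HeightOneSpectrum (𝓞 L),
      Nonempty (D →ₐ[L] Matrix (Fin d) (Fin d) (w.adicCompletion L)) := by
    intro w
    have h2 := rep_congr e (hloc w)
    subst hrd
    exact rep_of_matrix hr0 h2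
  have h3 := rep_matrix (r := r) (h d hd0 hdm D hdimD hlocD)
  have h4 := rep_congr e.symm h3
  rw [hrd] at h4
  exact h4

end Pool.Agent.Helper45.BR
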